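import Mathlib
import Pool.Agent.H.MP_a9bf58_lc.A

namespace Pool.Agent.Results.MP_a9bf58_lc.Main

open Pool.Agent.H.MP_a9bf58_lc

theorem result (U : Type) [MetricSpace U] (hU : Urysohn U) :
    ¬ Analytic {p : F U × F U | Homeo p.1 p.2} ∧
    ∀ (Y : Type) [MeasurableSpace Y] (E : Y → Y → Prop), Analytic {p : Y × Y | E p.1 p.2} →
      ¬ ∃ f : F U → Y, Measurable f ∧ ∀ A B, Homeo A B ↔ E (f A) (f B) := by
  have : ∀ (Y : Type) [MeasurableSpace Y] (E : Y → Y → Prop), Analytic {p : Y × Y | E p.1 p.2} →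
      ¬ ∃ f : F U → Y, Measurable f ∧ ∀ A B, Homeo A B ↔ E (f A) (f B) := by
    rintro Y _ E ⟨M, m1, m2⟩ ⟨f, f1, f2⟩
    obtain ⟨B, A, A₀, b1, b2, a1, a2⟩ := main hU
    refine b2 (b1.measurableSet_of_compl ?_)
    have m : Measurable fun p : (ℕ → ℕ) × (ℕ → ℕ) => ((f (A p.1), f A₀), p.2) :=
      ((f1.comp (a1.comp measurable_fst)).prodMk measurable_const).prodMk measurable_snd
    convert (m m1).analyticSet_image measurable_fst using 1
    ext y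
    rw [Set.mem_compl_iff, a2, f2]
    refine (Set.ext_iff.1 m2 (f (A y), f A₀)).trans ⟨?_, ?_⟩
    · rintro ⟨⟨_, b⟩, h, rfl⟩
      exact ⟨(y, b), h, rfl⟩
    · rintro ⟨⟨y, b⟩, h, rfl⟩
      exact ⟨_, h, rfl⟩
  exact ⟨fun h => this _ _ h ⟨id, measurable_id, fun _ _ => Iff.rfl⟩, this⟩

end Pool.Agent.Results.MP_a9bf58_lc.Main
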